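import Pool.Agent.W2helper3.BQ.Stm2

/-!
# Project BQ2, pieces CONV and MIX: composition and mixtures of majorants
-/

set_option autoImplicit false

open MeasureTheory Set Filter Topology
open scoped SchwartzMap ENNReal ContDiff BigOperators

namespace Pool.Agent.W2helper3.BQ

namespace H19C

/-- the weight -/
noncomputable def wt (v : ℝ) : ℝ≥0∞ := ENNReal.ofReal ((1 + |v|) * Real.exp (|v| / 8))

theorem wt_meas : Measurable wt := by
  unfold wt
  fun_prop

theorem wt_add (x y : ℝ) : wt (x + y) ≤ wt x * wt y := by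
  unfold wt
  rw [← ENNReal.ofReal_mul (by positivity)]
  refine ENNReal.ofReal_le_ofReal ?_
  have h1 : |x + y| ≤ |x| + |y| := abs_add_le x y
  have h2 : 1 + |x + y| ≤ (1 + |x|) * (1 + |y|) := by
    nlinarith [abs_nonneg x, abs_nonneg y, mul_nonneg (abs_nonneg x) (abs_nonneg y)]
  have h3 : Real.exp (|x + y| / 8) ≤ Real.exp (|x| / 8) * Real.exp (|y| / 8) := by
    rw [← Real.exp_add]
    refine Real.exp_le_exp.2 ?_
    linarith
  calc (1 + |x + y|) * Real.exp (|x + y| / 8)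
      ≤ ((1 + |x|) * (1 + |y|)) * (Real.exp (|x| / 8) * Real.exp (|y| / 8)) :=
        mul_le_mul h2 h3 (Real.exp_pos _).le (by positivity)
    _ = (1 + |x|) * Real.exp (|x| / 8) * ((1 + |y|) * Real.exp (|y| / 8)) := by ring

theorem mom_eq (μ : Measure ℝ) : Mom μ = ∫⁻ v, wt v ∂μ := rfl

theorem mom_conv (μ ν : Measure ℝ) [SFinite μ] [SFinite ν] : Mom (μ.conv ν) ≤ Mom μ * Mom ν := by
  rw [mom_eq, mom_eq, mom_eq, Measure.lintegral_conv wt_meas]
  calc ∫⁻ x, ∫⁻ y, wt (x + y) ∂ν ∂μ ≤ ∫⁻ x, ∫⁻ y, wt x * wt y ∂ν ∂μ :=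
        lintegral_mono fun x => lintegral_mono fun y => wt_add x y
    _ = ∫⁻ x, wt x * ∫⁻ y, wt y ∂ν ∂μ := by
        refine lintegral_congr fun x => ?_
        rw [lintegral_const_mul _ wt_meas]
    _ = (∫⁻ x, wt x ∂μ) * ∫⁻ y, wt y ∂ν := by
        rw [lintegral_mul_const _ wt_meas]

theorem int_shift (μ : Measure ℝ) [IsFiniteMeasure μ] (f : ℝ → ℝ) (hf : Continuous f)
    (hfc : HasCompactSupport f) (u : ℝ) : Integrable (fun v => f (u + v)) μ :=
  Continuous.integrable_of_hasCompactSupport (hf.comp (continuous_const_add u))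
    (hfc.comp_homeomorph (Homeomorph.addLeft u))

end H19C

open H19C

theorem p_MIX : P_MIX := by
  intro J μ E hJ hE h
  have hc0 : (J.card : ℝ≥0∞) ≠ 0 := by
    simpa using hJ.ne_empty
  have hct : (J.card : ℝ≥0∞) ≠ (⊤ : ℝ≥0∞) := ENNReal.natCast_ne_top _
  have hp : ∀ j ∈ J, IsProbabilityMeasure (μ j) := fun j hj => (h j hj).1
  refine ⟨(J.card : ℝ≥0∞)⁻¹ • ∑ j ∈ J, μ j, ⟨?_⟩, ?_, ?_⟩
  · rw [Measure.smul_apply, Measure.finset_sum_apply,
      Finset.sum_congr rfl fun j hj => (hp j hj).measure_univ]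
    simp only [Finset.sum_const, nsmul_eq_mul, mul_one, smul_eq_mul]
    exact ENNReal.inv_mul_cancel hc0 hct
  · rw [mom_eq, lintegral_smul_measure, lintegral_finset_sum_measure]
    have h1 : ∑ j ∈ J, ∫⁻ v, wt v ∂(μ j) ≤ ∑ j ∈ J, ENNReal.ofReal E :=
      Finset.sum_le_sum fun j hj => (h j hj).2
    rw [Finset.sum_const, nsmul_eq_mul] at h1
    calc (J.card : ℝ≥0∞)⁻¹ • ∑ j ∈ J, ∫⁻ v, wt v ∂(μ j)
        ≤ (J.card : ℝ≥0∞)⁻¹ * ((J.card : ℝ≥0∞) * ENNReal.ofReal E) := by
          rw [smul_eq_mul]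
          gcongr
      _ = ENNReal.ofReal E := by
          rw [← mul_assoc, ENNReal.inv_mul_cancel hc0 hct, one_mul]
  · intro f hf hfc u
    rw [integral_smul_measure, integral_finset_sum_measure]
    · rw [ENNReal.toReal_inv, ENNReal.toReal_natCast, smul_eq_mul, ← mul_assoc,
        mul_inv_cancel₀ (by exact_mod_cast hJ.card_pos.ne'), one_mul]
    · intro j hj
      haveI := hp j hj
      exact int_shift (μ j) f hf hfc u

theorem p_CONV : P_CONV := by
  intro μ ν r E₁ E₂ hμ hν hr hE1 hE2 h1 h2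
  set c : ℝ≥0∞ := ENNReal.ofReal (1 + r) with hc
  have hc0 : c ≠ 0 := by
    rw [hc]
    simp
    linarith
  have hct : c ≠ (⊤ : ℝ≥0∞) := ENNReal.ofReal_ne_top
  have hcr : c = 1 + ENNReal.ofReal r := by
    rw [hc, ENNReal.ofReal_add zero_le_one hr, ENNReal.ofReal_one]
  refine ⟨c⁻¹ • (μ + ENNReal.ofReal r • (ν.conv μ)), ⟨?_⟩, ?_, ?_⟩
  · rw [Measure.smul_apply, Measure.add_apply, Measure.smul_apply, measure_univ, measure_univ,
      smul_eq_mul, smul_eq_mul, mul_one, ← hcr]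
    exact ENNReal.inv_mul_cancel hc0 hct
  · rw [mom_eq, lintegral_smul_measure, lintegral_add_measure, lintegral_smul_measure, smul_eq_mul,
      smul_eq_mul, ← mom_eq, ← mom_eq]
    have h3 : Mom μ ≤ ENNReal.ofReal (E₁ * E₂) := by
      refine h1.trans (ENNReal.ofReal_le_ofReal ?_)
      nlinarith
    have h4 : Mom (ν.conv μ) ≤ ENNReal.ofReal (E₁ * E₂) := by
      refine (mom_conv ν μ).trans ?_
      rw [mul_comm E₁ E₂, ENNReal.ofReal_mul (by linarith)]
      exact mul_le_mul' h2 h1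
    calc c⁻¹ * (Mom μ + ENNReal.ofReal r * Mom (ν.conv μ))
        ≤ c⁻¹ * (ENNReal.ofReal (E₁ * E₂) + ENNReal.ofReal r * ENNReal.ofReal (E₁ * E₂)) := by
          gcongr
      _ = c⁻¹ * (c * ENNReal.ofReal (E₁ * E₂)) := by
          rw [hcr]
          ring
      _ = ENNReal.ofReal (E₁ * E₂) := by
          rw [← mul_assoc, ENNReal.inv_mul_cancel hc0 hct, one_mul]
  · intro f hf hfc u
    have hi := int_shift (ν.conv μ) f hf hfc u
    rw [integral_smul_measure, integral_add_measure (int_shift μ f hf hfc u)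
      (hi.smul_measure ENNReal.ofReal_ne_top), integral_smul_measure]
    have hcc : ∫ v, f (u + v) ∂(ν.conv μ) = ∫ w, (∫ v, f (u + w + v) ∂μ) ∂ν := by
      have hmap : Measure.conv ν μ = Measure.map (fun x : ℝ × ℝ => x.1 + x.2) (ν.prod μ) := rfl
      rw [hmap] at hi ⊢
      rw [integral_map (by fun_prop) hi.aestronglyMeasurable]
      have hi2 : Integrable (fun x : ℝ × ℝ => f (u + (x.1 + x.2))) (ν.prod μ) :=
        (integrable_map_measure hi.aestronglyMeasurable (by fun_prop)).1 hi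
      rw [integral_prod _ hi2]
      refine integral_congr_ae (Eventually.of_forall fun w => ?_)
      refine integral_congr_ae (Eventually.of_forall fun v => ?_)
      simp only [add_assoc]
    rw [hcc, hc, ENNReal.toReal_inv, ENNReal.toReal_ofReal (by linarith),
      ENNReal.toReal_ofReal hr, smul_eq_mul, smul_eq_mul, ← mul_assoc,
      mul_inv_cancel₀ (by linarith), one_mul]

end Pool.Agent.W2helper3.BQ
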