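import Pool.Agent.W2helper3.BQ.Stm2
import Pool.Agent.W2helper3.BQ.MoA

/-!
# Project BQ2, piece KER: kernels for the non-resonant modes, uniform in the mode

The factors `X - al i` and `X - be (σ i)` are exchanged one after another, where `σ` is the identity or
(if `k = 2 n - 2 i₀`, `1 ≤ i₀ < n`) the transposition of `i₀` and `n - i₀` (`al i₀ = be (n - i₀)`).
-/

set_option autoImplicit false

open MeasureTheory Set Filter Topology
open scoped SchwartzMap ENNReal ContDiff BigOperators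

namespace Pool.Agent.W2helper3.BQ

namespace H19K

open Polynomial in
/-- one factor -/
theorem step (hIN : P_IN2) (hLAP : P_LAP) (α β r : ℝ) (hα : 1 / 4 ≤ |α|)
    (hr : 2 * |α - β| ≤ r * |α|) :
    ∃ ν : Measure ℝ, IsProbabilityMeasure ν ∧ Mom ν ≤ ENNReal.ofReal 18 ∧
      ∀ (Q : Polynomial ℝ) (ζ : 𝓢(ℝ, ℂ)), HasCompactSupport ζ → ∀ u : ℝ,
        ‖pol ((X - C β) * Q) ζ u‖ ≤ ‖pol ((X - C α) * Q) ζ u‖ +
          r * ∫ w, ‖pol ((X - C α) * Q) ζ (u + w)‖ ∂ν := by
  obtain ⟨ν, h1, h2, h3⟩ := hLAP |α| hα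
  refine ⟨ν, h1, h2, fun Q ζ hζ u => ?_⟩
  have hα0 : 0 < |α| := by linarith
  have hαne : α ≠ 0 := abs_pos.1 hα0
  set η : 𝓢(ℝ, ℂ) := pol Q ζ with hη
  set g : 𝓢(ℝ, ℂ) := pol ((X - C α) * Q) ζ with hg
  have eg : g = DD η - α • η := pol_fac α Q ζ
  have eb : pol ((X - C β) * Q) ζ = DD η - β • η := pol_fac β Q ζ
  have hηs : HasCompactSupport η := cs_pol _ hζ
  have hgs : HasCompactSupport g := cs_pol _ hζ
  have e1 : pol ((X - C β) * Q) ζ u = g u + ((α - β : ℝ) : ℂ) * η u := by
    rw [eb, eg]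
    have a1 : (DD η - β • η) u = deriv η u - (β : ℂ) * η u := rfl
    have a2 : (DD η - α • η) u = deriv η u - (α : ℂ) * η u := rfl
    rw [a1, a2]
    push_cast
    ring
  have e2 : ‖η u‖ ≤ 2 / |α| * ∫ w, ‖g (u + w)‖ ∂ν := by
    have h4 := hIN α hαne η g (η.smooth 1) hηs g.continuous (fun x => by
      rw [eg]
      rfl) u
    rw [h3 (fun x => ‖g x‖) g.continuous.norm hgs.norm u] at h4
    exact h4
  rw [e1]
  refine (norm_add_le _ _).trans ?_
  rw [norm_mul, Complex.norm_real, Real.norm_eq_abs]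
  have h5 : 0 ≤ ∫ w, ‖g (u + w)‖ ∂ν := integral_nonneg fun w => norm_nonneg _
  have h6 : |α - β| * (2 / |α|) ≤ r := by
    rw [mul_div_assoc', div_le_iff₀ hα0]
    linarith
  have h7 : |α - β| * ‖η u‖ ≤ r * ∫ w, ‖g (u + w)‖ ∂ν :=
    calc |α - β| * ‖η u‖ ≤ |α - β| * (2 / |α| * ∫ w, ‖g (u + w)‖ ∂ν) :=
          mul_le_mul_of_nonneg_left e2 (abs_nonneg _)
      _ = (|α - β| * (2 / |α|)) * ∫ w, ‖g (u + w)‖ ∂ν := by ring
      _ ≤ r * ∫ w, ‖g (u + w)‖ ∂ν := mul_le_mul_of_nonneg_right h6 h5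
  linarith

theorem int_shift (μ : Measure ℝ) [IsFiniteMeasure μ] (f : ℝ → ℝ) (hf : Continuous f)
    (hfc : HasCompactSupport f) (u : ℝ) : Integrable (fun v => f (u + v)) μ :=
  Continuous.integrable_of_hasCompactSupport (hf.comp (continuous_const_add u))
    (hfc.comp_homeomorph (Homeomorph.addLeft u))

theorem int_shift2 (μ ν : Measure ℝ) [IsProbabilityMeasure μ] [IsProbabilityMeasure ν] (f : ℝ → ℝ)
    (hf : Continuous f) (hfc : HasCompactSupport f) (u : ℝ) :
    Integrable (fun w => ∫ v, f (u + w + v) ∂μ) ν := by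
  have hi := int_shift (ν.conv μ) f hf hfc u
  have hmap : Measure.conv ν μ = Measure.map (fun x : ℝ × ℝ => x.1 + x.2) (ν.prod μ) := rfl
  rw [hmap] at hi
  have hi2 : Integrable (fun x : ℝ × ℝ => f (u + (x.1 + x.2))) (ν.prod μ) :=
    (integrable_map_measure hi.aestronglyMeasurable (by fun_prop)).1 hi
  have h3 := hi2.integral_prod_left
  refine h3.congr (Eventually.of_forall fun w => ?_)
  refine integral_congr_ae (Eventually.of_forall fun v => ?_)
  simp only [add_assoc]

theorem mom_dirac : Mom (Measure.dirac 0) ≤ ENNReal.ofReal 1 := by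
  unfold Mom
  rw [lintegral_dirac' _ (by fun_prop)]
  simp

open Polynomial in
/-- the exchange of the factors -/
theorem chain (hIN : P_IN2) (hLAP : P_LAP) (hCONV : P_CONV) (α β : ℕ → ℝ) (r : ℝ) (hr0 : 0 ≤ r)
    (s : Finset ℕ) (hs : ∀ i ∈ s, α i = β i ∨ (1 / 4 ≤ |α i| ∧ 2 * |α i - β i| ≤ r * |α i|)) :
    ∃ μ : Measure ℝ, IsProbabilityMeasure μ ∧ Mom μ ≤ ENNReal.ofReal (18 ^ s.card) ∧
      ∀ (R : Polynomial ℝ) (ζ : 𝓢(ℝ, ℂ)), HasCompactSupport ζ → ∀ u : ℝ,
        ‖pol (R * ∏ i ∈ s, (X - C (β i))) ζ u‖ ≤ (1 + r) ^ s.card *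
          ∫ v, ‖pol (R * ∏ i ∈ s, (X - C (α i))) ζ (u + v)‖ ∂μ := by
  classical
  induction s using Finset.induction_on with
  | empty =>
    refine ⟨Measure.dirac 0, inferInstance, ?_, fun R ζ hζ u => ?_⟩
    · rw [Finset.card_empty, pow_zero]
      exact mom_dirac
    · rw [Finset.card_empty, pow_zero, one_mul, Finset.prod_empty, Finset.prod_empty,
        integral_dirac' _ _ (by
          have h1 : Continuous fun v : ℝ => ‖pol (R * 1) ζ (u + v)‖ :=
            ((pol (R * 1) ζ).continuous.comp (continuous_const_add u)).norm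
          exact h1.stronglyMeasurable), add_zero]
  | insert i s hi ih =>
    obtain ⟨μ, h1, h2, h3⟩ := ih fun j hj => hs j (Finset.mem_insert_of_mem hj)
    rw [Finset.card_insert_of_notMem hi]
    have hpw : (0 : ℝ) ≤ (1 + r) ^ s.card := by positivity
    have h18 : (1 : ℝ) ≤ 18 ^ s.card := one_le_pow₀ (by norm_num)
    rcases hs i (Finset.mem_insert_self i s) with hab | ⟨ha, hr⟩
    · refine ⟨μ, h1, ?_, fun R ζ hζ u => ?_⟩
      · refine h2.trans (ENNReal.ofReal_le_ofReal ?_)
        rw [pow_succ]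
        linarith
      · have h4 := h3 (R * (X - C (β i))) ζ hζ u
        have eb : R * ∏ j ∈ insert i s, (X - C (β j)) =
            R * (X - C (β i)) * ∏ j ∈ s, (X - C (β j)) := by
          rw [Finset.prod_insert hi]
          ring
        have ea : R * ∏ j ∈ insert i s, (X - C (α j)) =
            R * (X - C (β i)) * ∏ j ∈ s, (X - C (α j)) := by
          rw [Finset.prod_insert hi, hab]
          ring
        rw [eb, ea]
        refine h4.trans ?_
        have h5 : 0 ≤ ∫ v, ‖pol (R * (X - C (β i)) * ∏ j ∈ s, (X - C (α j))) ζ (u + v)‖ ∂μ :=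
          integral_nonneg fun w => norm_nonneg _
        refine mul_le_mul_of_nonneg_right ?_ h5
        rw [pow_succ]
        nlinarith
    · obtain ⟨ν, k1, k2, k3⟩ := step hIN hLAP (α i) (β i) r ha hr
      obtain ⟨ρ, m1, m2, m3⟩ := hCONV μ ν r (18 ^ s.card) 18 h1 k1 hr0 h18 (by norm_num) h2 k2
      refine ⟨ρ, m1, ?_, fun R ζ hζ u => ?_⟩
      · rw [pow_succ]
        exact m2
      · obtain ⟨f, hf⟩ : ∃ f : ℝ → ℝ, f = fun x =>
            ‖pol (R * ∏ j ∈ insert i s, (X - C (α j))) ζ x‖ := ⟨_, rfl⟩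
        have hfc : Continuous f := by
          rw [hf]
          exact (pol _ ζ).continuous.norm
        have hfs : HasCompactSupport f := by
          rw [hf]
          exact (cs_pol _ hζ).norm
        obtain ⟨g, hg⟩ : ∃ g : 𝓢(ℝ, ℂ), g =
            pol ((X - C (α i)) * (R * ∏ j ∈ s, (X - C (β j)))) ζ := ⟨_, rfl⟩
        have hgs : HasCompactSupport g := by
          rw [hg]
          exact cs_pol _ hζ
        have hgb : ∀ x, ‖g x‖ ≤ (1 + r) ^ s.card * ∫ v, f (x + v) ∂μ := by
          intro x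
          have h4 := h3 (R * (X - C (α i))) ζ hζ x
          have ea : R * ∏ j ∈ insert i s, (X - C (α j)) =
              R * (X - C (α i)) * ∏ j ∈ s, (X - C (α j)) := by
            rw [Finset.prod_insert hi]
            ring
          have eb : R * (X - C (α i)) * ∏ j ∈ s, (X - C (β j)) =
              (X - C (α i)) * (R * ∏ j ∈ s, (X - C (β j))) := by
            ring
          rw [hg, hf, ea, ← eb]
          exact h4
        have h5 := k3 (R * ∏ j ∈ s, (X - C (β j))) ζ hζ u
        have eb2 : R * ∏ j ∈ insert i s, (X - C (β j)) =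
            (X - C (β i)) * (R * ∏ j ∈ s, (X - C (β j))) := by
          rw [Finset.prod_insert hi]
          ring
        rw [eb2]
        rw [← hg] at h5
        refine h5.trans ?_
        have h6 : ∫ w, ‖g (u + w)‖ ∂ν ≤
            (1 + r) ^ s.card * ∫ w, (∫ v, f (u + w + v) ∂μ) ∂ν := by
          rw [← integral_const_mul]
          exact integral_mono (int_shift ν (fun x => ‖g x‖) g.continuous.norm hgs.norm u)
            ((int_shift2 μ ν f hfc hfs u).const_mul _) fun w => hgb (u + w)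
        have h7 := m3 f hfc hfs u
        calc ‖g u‖ + r * ∫ w, ‖g (u + w)‖ ∂ν
            ≤ (1 + r) ^ s.card * ∫ v, f (u + v) ∂μ +
              r * ((1 + r) ^ s.card * ∫ w, (∫ v, f (u + w + v) ∂μ) ∂ν) :=
              add_le_add (hgb u) (mul_le_mul_of_nonneg_left h6 hr0)
          _ = (1 + r) ^ s.card * ((∫ v, f (u + v) ∂μ) +
              r * ∫ w, (∫ v, f (u + w + v) ∂μ) ∂ν) := by ring
          _ = (1 + r) ^ (s.card + 1) * ∫ v, f (u + v) ∂ρ := by
              rw [h7, pow_succ]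
              ring
          _ = _ := by rw [hf]

/-- the quotient -/
theorem quo {p : ℝ} (hp : 4 ≤ p) (n : ℕ) (k : ℤ) (i l : ℕ) (hi : i < n) (hl : l < n)
    (h : (k : ℝ) / 2 - n + i ≠ 0) :
    1 / 4 ≤ |al p n k i| ∧ 2 * |al p n k i - be p n k l| ≤ (8 + 16 * n) * |al p n k i| := by
  have h1 : (1 : ℝ) / p ≤ 1 / 4 := one_div_le_one_div_of_le (by norm_num) hp
  have h0 : (0 : ℝ) < 1 / p := by positivity
  obtain ⟨H, hH⟩ : ∃ H : ℝ, H = (k : ℝ) / 2 - n + i := ⟨_, rfl⟩
  have e : H = ((k - 2 * n + 2 * i : ℤ) : ℝ) / 2 := by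
    rw [hH]
    push_cast
    ring
  have hz : (k - 2 * n + 2 * i : ℤ) ≠ 0 := by
    intro h2
    apply h
    rw [← hH, e, h2]
    simp
  have hH2 : 1 / 2 ≤ |H| := by
    have h3 : (1 : ℤ) ≤ |k - 2 * n + 2 * i| := Int.one_le_abs hz
    have h4 : (1 : ℝ) ≤ |((k - 2 * n + 2 * i : ℤ) : ℝ)| := by
      rw [← Int.cast_abs]
      exact_mod_cast h3
    rw [e, abs_div, abs_of_pos (by norm_num : (0 : ℝ) < 2)]
    linarith
  have ea : al p n k i = 1 / p + H := by
    rw [hH]
    unfold al
    ring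
  have hal : |H| - 1 / 4 ≤ |al p n k i| := by
    have h5 : |H| ≤ |1 / p + H| + |1 / p| := by
      have := abs_sub (1 / p + H) (1 / p)
      rw [add_sub_cancel_left] at this
      exact this
    rw [abs_of_pos h0] at h5
    rw [ea]
    linarith
  have h14 : 1 / 4 ≤ |al p n k i| := by linarith
  refine ⟨h14, ?_⟩
  have ed : al p n k i - be p n k l = 2 * H + (n - i - l) := by
    rw [hH]
    unfold al be
    ring
  have hin : (i : ℝ) ≤ n := by exact_mod_cast hi.le
  have hln : (l : ℝ) ≤ n := by exact_mod_cast hl.le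
  have hi0 : (0 : ℝ) ≤ i := Nat.cast_nonneg i
  have hl0 : (0 : ℝ) ≤ l := Nat.cast_nonneg l
  have hn0 : (0 : ℝ) ≤ n := Nat.cast_nonneg n
  have h6 : |al p n k i - be p n k l| ≤ 2 * |H| + n := by
    rw [ed]
    refine (abs_add_le _ _).trans ?_
    rw [abs_mul, abs_of_pos (by norm_num : (0 : ℝ) < 2)]
    have : |(n : ℝ) - i - l| ≤ n := by
      rw [abs_le]
      constructor <;> linarith
    linarith
  have h7 : |H| ≤ 2 * |al p n k i| := by linarith
  nlinarith

end H19K

open H19K

theorem p_KER : P_KER := by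
  intro hIN hLAP hCONV _ n hn
  have hn0 : (0 : ℝ) ≤ n := Nat.cast_nonneg n
  refine ⟨(1 + (8 + 16 * n)) ^ n, 18 ^ n, one_le_pow₀ (by linarith), one_le_pow₀ (by norm_num),
    fun p hp k hk => ?_⟩
  -- the permutation
  obtain ⟨σ, hσ1, hσ2⟩ : ∃ σ : Equiv.Perm ℕ, (∀ i, i ∈ Finset.range n ↔ σ i ∈ Finset.range n) ∧
      ∀ i ∈ Finset.range n, al p n k i = be p n k (σ i) ∨
        (1 / 4 ≤ |al p n k i| ∧
          2 * |al p n k i - be p n k (σ i)| ≤ (8 + 16 * n) * |al p n k i|) := by
    by_cases hbad : ∃ i₀, i₀ < n ∧ (k : ℝ) / 2 - n + i₀ = 0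
    · obtain ⟨i₀, hi₀, hz⟩ := hbad
      have hi1 : i₀ ≠ 0 := by
        intro h
        apply hk
        rw [h] at hz
        have h2 : (k : ℝ) = 2 * n := by
          push_cast at hz
          linarith
        exact_mod_cast h2
      have hswap : ∀ i, i < n → (Equiv.swap i₀ (n - i₀)) i < n := by
        intro i hi
        rcases eq_or_ne i i₀ with h | h
        · rw [h, Equiv.swap_apply_left]
          omega
        · rcases eq_or_ne i (n - i₀) with h' | h'
          · rw [h', Equiv.swap_apply_right]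
            exact hi₀
          · rw [Equiv.swap_apply_of_ne_of_ne h h']
            exact hi
      refine ⟨Equiv.swap i₀ (n - i₀), fun i => ?_, fun i hi => ?_⟩
      · rw [Finset.mem_range, Finset.mem_range]
        refine ⟨hswap i, fun h => ?_⟩
        have := hswap _ h
        rwa [Equiv.swap_apply_self] at this
      · rw [Finset.mem_range] at hi
        by_cases hh : (k : ℝ) / 2 - n + i = 0
        · left
          have hii : i = i₀ := by
            have : (i : ℝ) = i₀ := by linarith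
            exact_mod_cast this
          rw [hii, Equiv.swap_apply_left]
          unfold al be
          rw [Nat.cast_sub hi₀.le]
          linarith
        · right
          exact quo hp n k i _ hi (hswap i hi) hh
    · push Not at hbad
      refine ⟨Equiv.refl ℕ, fun i => Iff.rfl, fun i hi => ?_⟩
      rw [Finset.mem_range] at hi
      right
      exact quo hp n k i i hi hi (hbad i hi)
  obtain ⟨μ, h1, h2, h3⟩ := chain hIN hLAP hCONV (al p n k) (fun i => be p n k (σ i))
    (8 + 16 * n) (by linarith) (Finset.range n) hσ2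
  rw [Finset.card_range] at h2 h3
  refine ⟨μ, h1, h2, fun ζ hζ u => ?_⟩
  have h4 := h3 1 ζ hζ u
  have eB : (1 : Polynomial ℝ) * ∏ i ∈ Finset.range n,
      (Polynomial.X - Polynomial.C (be p n k (σ i))) = PB p n k := by
    rw [one_mul, PB]
    exact Finset.prod_equiv σ hσ1 fun i _ => rfl
  have eA : (1 : Polynomial ℝ) * ∏ i ∈ Finset.range n,
      (Polynomial.X - Polynomial.C (al p n k i)) = PA p n k := by
    rw [one_mul, PA]
  rw [eA, eB] at h4
  exact h4

end Pool.Agent.W2helper3.BQ
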