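import Pool.Agent.W2helper3.BQ.Stm2

/-!
# Project BQ2, piece LAP: the Laplace distribution
-/

set_option autoImplicit false

open MeasureTheory Set Filter Topology
open scoped SchwartzMap ENNReal ContDiff BigOperators

namespace Pool.Agent.W2helper3.BQ

namespace H19L

theorem int_abs {g : ℝ → ℝ} (h1 : IntegrableOn g (Ioi 0)) : Integrable (fun v => g |v|) := by
  have h1' : IntegrableOn (fun v => g |v|) (Ioi 0) := by
    refine h1.congr_fun ?_ measurableSet_Ioi
    intro v hv
    simp only
    rw [abs_of_pos hv]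
  have h2 : IntegrableOn (fun v => g |v|) (Iic 0) := by
    have h3 := h1'.comp_neg
    rw [Set.neg_Ioi, neg_zero] at h3
    refine (integrableOn_Iic_iff_integrableOn_Iio).2 (h3.congr_fun ?_ measurableSet_Iio)
    intro v _
    show g |(-v)| = g |v|
    rw [abs_neg]
  rw [← integrableOn_univ, ← Iic_union_Ioi (a := (0 : ℝ))]
  exact h2.union h1'

/-- the antiderivative -/
theorem hder (b : ℝ) (hb : 0 < b) (x : ℝ) :
    HasDerivAt (fun v : ℝ => -(((1 + v) / b + 1 / b ^ 2) * Real.exp (-(b * v))))
      ((1 + x) * Real.exp (-(b * x))) x := by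
  have h1 : HasDerivAt (fun v : ℝ => (1 + v) / b + 1 / b ^ 2) (1 / b) x :=
    (((hasDerivAt_id x).const_add 1).div_const b).add_const _
  have h2 : HasDerivAt (fun v : ℝ => Real.exp (-(b * v))) (Real.exp (-(b * x)) * (-(b * 1))) x :=
    ((hasDerivAt_id x).const_mul b).neg.exp
  refine (h1.mul h2).neg.congr_deriv ?_
  field_simp
  ring

theorem tend (b : ℝ) (hb : 0 < b) :
    Tendsto (fun v : ℝ => -(((1 + v) / b + 1 / b ^ 2) * Real.exp (-(b * v)))) atTop (𝓝 0) := by
  have h0 := Real.tendsto_pow_mul_exp_neg_atTop_nhds_zero 0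
  have h1 := Real.tendsto_pow_mul_exp_neg_atTop_nhds_zero 1
  have hb' : Tendsto (fun v : ℝ => b * v) atTop atTop := tendsto_id.const_mul_atTop hb
  have h0' := (h0.comp hb').const_mul (-(1 / b + 1 / b ^ 2))
  have h1' := (h1.comp hb').const_mul (-(1 / b ^ 2))
  have h2 := h0'.add h1'
  simp only [mul_zero, add_zero] at h2
  refine h2.congr fun v => ?_
  simp only [Function.comp, pow_zero, pow_one]
  field_simp
  ring

theorem intOn (b : ℝ) (hb : 0 < b) : IntegrableOn (fun x => (1 + x) * Real.exp (-(b * x))) (Ioi 0) :=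
  integrableOn_Ioi_deriv_of_nonneg' (fun x _ => hder b hb x)
    (fun x hx => mul_nonneg (by have : (0 : ℝ) < x := hx; linarith) (Real.exp_pos _).le) (tend b hb)

theorem intVal (b : ℝ) (hb : 0 < b) :
    ∫ x in Ioi (0 : ℝ), (1 + x) * Real.exp (-(b * x)) = 1 / b + 1 / b ^ 2 := by
  rw [integral_Ioi_of_hasDerivAt_of_nonneg' (fun x _ => hder b hb x)
    (fun x hx => mul_nonneg (by have : (0 : ℝ) < x := hx; linarith) (Real.exp_pos _).le) (tend b hb)]
  simp

theorem intOn0 (b : ℝ) (hb : 0 < b) : IntegrableOn (fun x => Real.exp (-(b * x))) (Ioi 0) := by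
  refine (integrableOn_exp_mul_Ioi (a := -b) (by linarith) 0).congr_fun ?_ measurableSet_Ioi
  intro v _
  simp only
  congr 1
  ring

theorem intVal0 (b : ℝ) (hb : 0 < b) : ∫ x in Ioi (0 : ℝ), Real.exp (-(b * x)) = 1 / b := by
  have h3 := integral_exp_mul_Ioi (a := -b) (by linarith) 0
  rw [mul_zero, Real.exp_zero] at h3
  have h4 : ∫ v in Ioi (0 : ℝ), Real.exp (-(b * v)) = ∫ v in Ioi (0 : ℝ), Real.exp (-b * v) := by
    refine setIntegral_congr_fun measurableSet_Ioi fun v _ => ?_
    congr 1
    ring
  rw [h4, h3]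
  field_simp

end H19L

open H19L

theorem p_LAP : P_LAP := by
  intro a ha
  have ha0 : 0 < a := by linarith
  set d : ℝ → ℝ≥0∞ := fun v => ENNReal.ofReal (a / 2 * Real.exp (-(a * |v|))) with hd
  have hdm : Measurable d := by
    refine ENNReal.measurable_ofReal.comp ?_
    fun_prop
  have hi0 : Integrable (fun v : ℝ => a / 2 * Real.exp (-(a * |v|))) :=
    (int_abs (g := fun x => Real.exp (-(a * x))) (intOn0 a ha0)).const_mul _
  refine ⟨volume.withDensity d, ⟨?_⟩, ?_, ?_⟩
  · rw [withDensity_apply _ MeasurableSet.univ, Measure.restrict_univ,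
      ← ofReal_integral_eq_lintegral_ofReal hi0 (Eventually.of_forall fun v => by positivity),
      integral_const_mul, integral_comp_abs (f := fun x => Real.exp (-(a * x))), intVal0 a ha0]
    rw [show a / 2 * (2 * (1 / a)) = 1 by field_simp]
    exact ENNReal.ofReal_one
  · rw [Mom, lintegral_withDensity_eq_lintegral_mul _ hdm (by fun_prop)]
    set b : ℝ := a - 1 / 8 with hb
    have hb8 : 1 / 8 ≤ b := by linarith
    have hb0 : 0 < b := by linarith
    have e1 : ∀ v : ℝ, (d * fun v => ENNReal.ofReal ((1 + |v|) * Real.exp (|v| / 8))) v =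
        ENNReal.ofReal (a / 2 * ((1 + |v|) * Real.exp (-(b * |v|)))) := by
      intro v
      simp only [Pi.mul_apply, hd]
      rw [← ENNReal.ofReal_mul (by positivity)]
      congr 1
      have : Real.exp (-(b * |v|)) = Real.exp (-(a * |v|)) * Real.exp (|v| / 8) := by
        rw [← Real.exp_add]
        congr 1
        rw [hb]
        ring
      rw [this]
      ring
    rw [lintegral_congr e1]
    have hi1 : Integrable (fun v : ℝ => a / 2 * ((1 + |v|) * Real.exp (-(b * |v|)))) :=
      (int_abs (g := fun x => (1 + x) * Real.exp (-(b * x))) (intOn b hb0)).const_mul _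
    rw [← ofReal_integral_eq_lintegral_ofReal hi1 (Eventually.of_forall fun v => by positivity),
      integral_const_mul, integral_comp_abs (f := fun x => (1 + x) * Real.exp (-(b * x))),
      intVal b hb0]
    refine ENNReal.ofReal_le_ofReal ?_
    have hab : a = b + 1 / 8 := by rw [hb]; ring
    have e2 : a / 2 * (2 * (1 / b + 1 / b ^ 2)) = a / b + a / b ^ 2 := by
      field_simp
    rw [e2]
    have h1 : a / b ≤ 2 := by
      rw [div_le_iff₀ hb0]
      linarith
    have h2 : a / b ^ 2 ≤ 16 := by
      rw [div_le_iff₀ (by positivity)]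
      nlinarith
    linarith
  · intro f hf hfc u
    rw [integral_withDensity_eq_integral_toReal_smul hdm
      (Eventually.of_forall fun v => by simp only [hd]; exact ENNReal.ofReal_lt_top),
      ← integral_const_mul]
    refine integral_congr_ae (Eventually.of_forall fun v => ?_)
    simp only [hd]
    rw [ENNReal.toReal_ofReal (by positivity), smul_eq_mul]
    field_simp

end Pool.Agent.W2helper3.BQ
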