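import Pool.Agent.W2helper3.BQ.Stm

/-! Piece POL of project BQ (helper3): logarithmic polar coordinates for the Lebesgue integral. -/

set_option autoImplicit false

open MeasureTheory Set Filter Topology
open scoped ENNReal

namespace Pool.Agent.W2helper3.BQ

theorem POL.ex_eq (u t : ℝ) :
    ex u t = Complex.polarCoord.symm (Real.exp (u / 2), t) := by
  rw [Complex.polarCoord_symm_apply]
  unfold ex
  rw [Complex.exp_add, Complex.exp_mul_I, Complex.ofReal_exp]
  push_cast
  ring

theorem POL.ex_per (u : ℝ) : Function.Periodic (ex u) (2 * Real.pi) := by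
  intro t
  unfold ex
  have : ((u / 2 : ℝ) : ℂ) + ((t + 2 * Real.pi : ℝ) : ℂ) * Complex.I =
      ((u / 2 : ℝ) : ℂ) + (t : ℂ) * Complex.I + 2 * Real.pi * Complex.I := by
    push_cast
    ring
  rw [this]
  exact Complex.exp_periodic _

theorem POL.ex_cont : Continuous fun q : ℝ × ℝ => ex q.1 q.2 := by
  unfold ex
  fun_prop

theorem POL.enorm_rpow (z : ℂ) (p : ℝ) (hp : 0 < p) :
    ‖z‖ₑ ^ p = ENNReal.ofReal (‖z‖ ^ p) := by
  rw [← ofReal_norm, ENNReal.ofReal_rpow_of_nonneg (norm_nonneg z) hp.le]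

theorem POL.inner (p : ℝ) (hp : 0 < p) (f : ℂ → ℂ) (hf : Continuous f) (u : ℝ) :
    ∫⁻ t in Ioo (-Real.pi) Real.pi, ‖f (ex u t)‖ₑ ^ p =
      ENNReal.ofReal (2 * Real.pi * av fun t => ‖f (ex u t)‖ ^ p) := by
  have hc : Continuous fun t : ℝ => ‖f (ex u t)‖ ^ p := by
    have h1 : Continuous fun t : ℝ => ex u t := POL.ex_cont.comp (by fun_prop : Continuous fun t : ℝ => (u, t))
    exact ((hf.comp h1).norm).rpow_const fun t => Or.inr hp.le
  have hper : Function.Periodic (fun t : ℝ => ‖f (ex u t)‖ ^ p) (2 * Real.pi) := by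
    intro t
    simp only [POL.ex_per u t]
  have hI : IntegrableOn (fun t : ℝ => ‖f (ex u t)‖ ^ p) (Ioo (-Real.pi) Real.pi) :=
    (hc.integrableOn_Icc (a := -Real.pi) (b := Real.pi)).mono_set Ioo_subset_Icc_self
  have h2 : ∫ t in (-Real.pi)..(-Real.pi + 2 * Real.pi), ‖f (ex u t)‖ ^ p =
      ∫ t in (0 : ℝ)..(0 + 2 * Real.pi), ‖f (ex u t)‖ ^ p :=
    hper.intervalIntegral_add_eq _ _
  have e1 : -Real.pi + 2 * Real.pi = Real.pi := by ring
  rw [e1, zero_add] at h2
  have hle : -Real.pi ≤ Real.pi := by linarith [Real.pi_pos]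
  rw [intervalIntegral.integral_of_le hle, integral_Ioc_eq_integral_Ioo] at h2
  have h3 : 2 * Real.pi * (av fun t => ‖f (ex u t)‖ ^ p) =
      ∫ t in Ioo (-Real.pi) Real.pi, ‖f (ex u t)‖ ^ p := by
    rw [h2]
    unfold av
    field_simp
  rw [h3, ofReal_integral_eq_lintegral_ofReal hI
    (Eventually.of_forall fun t => Real.rpow_nonneg (norm_nonneg _) _)]
  exact lintegral_congr fun t => POL.enorm_rpow _ p hp

theorem p_POL : P_POL := by
  intro p hp f hf
  have hm : Measurable fun z : ℂ => ‖f z‖ₑ ^ p := by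
    have := hf.measurable
    fun_prop
  rw [← Complex.lintegral_comp_polarCoord_symm]
  rw [polarCoord_target, Measure.volume_eq_prod, ← Measure.prod_restrict]
  rw [lintegral_prod]
  swap
  · have hc : Continuous fun q : ℝ × ℝ => Complex.polarCoord.symm q := by
      have : (fun q : ℝ × ℝ => Complex.polarCoord.symm q) =
          fun q : ℝ × ℝ => (q.1 : ℂ) * (Real.cos q.2 + Real.sin q.2 * Complex.I) := by
        funext q
        exact Complex.polarCoord_symm_apply q
      rw [this]
      fun_prop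
    have h1 : Measurable fun q : ℝ × ℝ => ENNReal.ofReal q.1 • ‖f (Complex.polarCoord.symm q)‖ₑ ^ p := by
      have h2 : Measurable fun q : ℝ × ℝ => ‖f (Complex.polarCoord.symm q)‖ₑ ^ p :=
        hm.comp hc.measurable
      exact (measurable_fst.ennreal_ofReal).mul h2
    exact h1.aemeasurable
  have himg : (fun u : ℝ => Real.exp (u / 2)) '' univ = Ioi 0 := by
    ext r
    simp only [image_univ, mem_range, mem_Ioi]
    constructor
    · rintro ⟨u, rfl⟩
      exact Real.exp_pos _
    · intro hr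
      refine ⟨2 * Real.log r, ?_⟩
      rw [mul_div_cancel_left₀ _ (two_ne_zero), Real.exp_log hr]
  have hder : ∀ u ∈ (univ : Set ℝ), HasDerivWithinAt (fun u : ℝ => Real.exp (u / 2))
      (Real.exp (u / 2) * (1 / 2)) univ u := by
    intro u _
    exact (((hasDerivAt_id u).div_const 2).exp).hasDerivWithinAt
  have hinj : InjOn (fun u : ℝ => Real.exp (u / 2)) univ := by
    intro a _ b _ h
    have := Real.exp_injective h
    linarith
  rw [← himg, lintegral_image_eq_lintegral_abs_deriv_mul MeasurableSet.univ hder hinj,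
    Measure.restrict_univ, ← lintegral_const_mul']
  swap
  · exact ENNReal.ofReal_ne_top
  refine lintegral_congr fun u => ?_
  have h1 : ∫⁻ t in Ioo (-Real.pi) Real.pi, ENNReal.ofReal (Real.exp (u / 2), t).1 •
      ‖f (Complex.polarCoord.symm (Real.exp (u / 2), t))‖ₑ ^ p =
      ENNReal.ofReal (Real.exp (u / 2)) *
        ENNReal.ofReal (2 * Real.pi * av fun t => ‖f (ex u t)‖ ^ p) := by
    rw [← POL.inner p hp f hf u, ← lintegral_const_mul']
    · refine lintegral_congr fun t => ?_
      rw [POL.ex_eq, smul_eq_mul]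
    · exact ENNReal.ofReal_ne_top
  rw [h1, ← ENNReal.ofReal_mul (Real.exp_pos _).le, ← ENNReal.ofReal_mul (abs_nonneg _),
    ← ENNReal.ofReal_mul Real.pi_pos.le]
  congr 1
  have h2 : (av fun t => ‖(Real.exp (u / p) : ℂ) * f (ex u t)‖ ^ p) =
      Real.exp u * av fun t => ‖f (ex u t)‖ ^ p := by
    have h3 : (fun t : ℝ => ‖(Real.exp (u / p) : ℂ) * f (ex u t)‖ ^ p) =
        fun t : ℝ => Real.exp u * ‖f (ex u t)‖ ^ p := by
      funext t
      rw [norm_mul, Complex.norm_real, Real.norm_eq_abs, abs_of_pos (Real.exp_pos _),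
        Real.mul_rpow (Real.exp_pos _).le (norm_nonneg _), ← Real.exp_mul,
        div_mul_cancel₀ _ hp.ne']
    rw [h3]
    unfold av
    rw [intervalIntegral.integral_const_mul]
    ring
  rw [h2, abs_of_pos (by positivity)]
  have h4 : Real.exp u = Real.exp (u / 2) * Real.exp (u / 2) := by
    rw [← Real.exp_add]
    congr 1
    ring
  rw [h4]
  ring

end Pool.Agent.W2helper3.BQ
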