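import Pool.Agent.W2helper3.BQ.Stm3
import Pool.Agent.W2helper3.BQ.Lc

/-!
# Project BQ3, piece RR
-/

set_option autoImplicit false

open MeasureTheory Set Filter Topology
open scoped SchwartzMap ENNReal ContDiff BigOperators

namespace Pool.Agent.W2helper19.BQ

open Pool.Agent.W2helper3.BQ

theorem RR.av_neg {f : ℝ → ℝ} (hf : Function.Periodic f (2 * Real.pi)) :
    av (fun s => f (-s)) = av f := by
  unfold av
  rw [intervalIntegral.integral_comp_neg (fun s => f s)]
  have h := hf.intervalIntegral_add_eq (-(2 * Real.pi)) 0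
  rw [neg_add_cancel, zero_add] at h
  rw [neg_zero, h]

theorem RR.avc_neg {f : ℝ → ℂ} (hf : Function.Periodic f (2 * Real.pi)) :
    avc (fun s => f (-s)) = avc f := by
  unfold avc
  rw [intervalIntegral.integral_comp_neg (fun s => f s)]
  have h := hf.intervalIntegral_add_eq (-(2 * Real.pi)) 0
  rw [neg_add_cancel, zero_add] at h
  rw [neg_zero, h]

theorem RR.exp_per (m : ℤ) :
    Function.Periodic (fun s : ℝ => Complex.exp (-((m : ℂ) * s * Complex.I))) (2 * Real.pi) := by
  intro s
  show Complex.exp (-((m : ℂ) * ((s + 2 * Real.pi : ℝ) : ℂ) * Complex.I)) = _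
  rw [Complex.exp_eq_exp_iff_exists_int]
  refine ⟨-m, ?_⟩
  push_cast
  ring

theorem p_RR : P_RR := by
  intro hKX hKAP hKC1 hKB hMASS hKC n hn
  obtain ⟨C, hC1, hC⟩ := hKC hKAP hKC1 hKB hMASS n hn
  have hn1 : (1 : ℝ) ≤ n := by exact_mod_cast hn
  refine ⟨2 * n * C, by nlinarith, ?_⟩
  intro p q N hp hq hNq ζ hζ H R hH hR hper hz hm u t
  have hq0 : 0 < q := by linarith
  have hp0 : 0 < p := by linarith
  -- the weight
  have hhr : Continuous (fun v => hr q H v) := by
    unfold hr
    exact av_cont (g := fun v s => ‖H v s‖ ^ q) ((hH.norm).rpow_const fun _ => Or.inr hq0.le)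
  have hhr0 : ∀ v, 0 ≤ hr q H v := fun v => av_nonneg fun s => by positivity
  have hhrR : ∀ v, R ≤ |v| → hr q H v = 0 := by
    intro v hv
    unfold hr
    have : (fun s => ‖H v s‖ ^ q) = fun _ => (0 : ℝ) := by
      funext s
      rw [hR v hv s, norm_zero, Real.zero_rpow hq0.ne']
    rw [this, av_const]
  set φ : ℝ → ℝ := fun v => Real.exp (-(|v| / 4)) * hr q H (u + v) with hφ
  have hφc : Continuous φ := by
    refine Continuous.mul ?_ (hhr.comp (continuous_const.add continuous_id))
    exact Real.continuous_exp.comp (continuous_abs.div_const 4).neg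
  have hφ0 : ∀ v, 0 ≤ φ v := fun v => mul_nonneg (Real.exp_pos _).le (hhr0 _)
  have hout : ∀ v, |R| + |u| ≤ |v| → R ≤ |u + v| := by
    intro v hv
    have h1 : |v| ≤ |u + v| + |u| := by
      have := abs_sub (u + v) u
      rwa [add_sub_cancel_left] at this
    have h2 := le_abs_self R
    linarith
  have hφi : Integrable φ := by
    apply hφc.integrable_of_hasCompactSupport
    refine HasCompactSupport.intro (isCompact_Icc (a := -(|R| + |u|)) (b := |R| + |u|)) ?_
    intro v hv
    have h1 : |R| + |u| ≤ |v| := by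
      by_contra h
      push Not at h
      exact hv (abs_le.1 h.le)
    simp only [hφ, hhrR _ (hout v h1), mul_zero]
  set A : ℝ := (∫ v, φ v) ^ (1 / q) with hA
  have hA1 : (∫ v in Ioi (0 : ℝ), Real.exp (-(v / 4)) * hr q H (u + v)) ^ (1 / q) ≤ A := by
    rw [hA]
    have h1 : ∫ v in Ioi (0 : ℝ), Real.exp (-(v / 4)) * hr q H (u + v) =
        ∫ v in Ioi (0 : ℝ), φ v := by
      refine setIntegral_congr_fun measurableSet_Ioi fun v hv => ?_
      simp only [hφ]
      rw [abs_of_pos hv]
    rw [h1]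
    apply Real.rpow_le_rpow (setIntegral_nonneg measurableSet_Ioi fun v _ => hφ0 v) _
      (by positivity)
    exact setIntegral_le_integral hφi (Eventually.of_forall hφ0)
  have hA2 : (∫ v in Ioi (0 : ℝ), Real.exp (-(v / 4)) * hr q H (u - v)) ^ (1 / q) ≤ A := by
    rw [hA]
    have h1 : ∫ v in Ioi (0 : ℝ), Real.exp (-(v / 4)) * hr q H (u - v) =
        ∫ v in Iic (0 : ℝ), φ v := by
      have h2 := integral_comp_neg_Ioi (0 : ℝ) φ
      rw [neg_zero] at h2
      rw [← h2]
      refine setIntegral_congr_fun measurableSet_Ioi fun v hv => ?_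
      simp only [hφ]
      rw [abs_neg, abs_of_pos hv, sub_eq_add_neg]
    rw [h1]
    apply Real.rpow_le_rpow (setIntegral_nonneg measurableSet_Iic fun v _ => hφ0 v) _
      (by positivity)
    exact setIntegral_le_integral hφi (Eventually.of_forall hφ0)
  -- first part
  have hP1 : ‖∑ l ∈ Finset.Icc 1 (N - 2 * n),
      Complex.exp ((((2 * (n : ℤ) + (l : ℤ)) - 2 * n : ℤ) : ℂ) * t * Complex.I) *
        (pol (PB p n (2 * (n : ℤ) + (l : ℤ))) (ζ (2 * (n : ℤ) + (l : ℤ))) u -
          pol (PA p n (2 * (n : ℤ) + (l : ℤ))) (ζ (2 * (n : ℤ) + (l : ℤ))) u)‖ ≤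
      n * (C * q * A) := by
    have key := hC q (N - 2 * n) hq (by
        refine le_trans ?_ hNq
        apply Real.log_le_log (by positivity)
        have : ((N - 2 * n : ℕ) : ℝ) ≤ N := by exact_mod_cast Nat.sub_le _ _
        linarith) (fun v => Real.exp (-(v / p))) (fun v s => H (u + v) s) (|R| + |u|)
      (Real.continuous_exp.comp (continuous_id.div_const p).neg)
      (fun v hv => by
        rw [abs_of_pos (Real.exp_pos _), Real.exp_le_one_iff]
        have : 0 < v / p := div_pos hv hp0
        linarith)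
      (hH.comp ((continuous_const.add continuous_fst).prodMk continuous_snd))
      (fun v hv s => hR _ (hout v hv) s)
      (fun v l hl => by
        have h1 := hz (l : ℤ) (u + v) (by
          rw [abs_of_nonneg (by positivity)]
          omega)
        simpa only [Int.cast_natCast] using h1) t
    have hsum : (∑ l ∈ Finset.Icc 1 (N - 2 * n),
        Complex.exp ((((2 * (n : ℤ) + (l : ℤ)) - 2 * n : ℤ) : ℂ) * t * Complex.I) *
          (pol (PB p n (2 * (n : ℤ) + (l : ℤ))) (ζ (2 * (n : ℤ) + (l : ℤ))) u -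
            pol (PA p n (2 * (n : ℤ) + (l : ℤ))) (ζ (2 * (n : ℤ) + (l : ℤ))) u)) =
        ((-1) ^ n * n) * ∑ l ∈ Finset.Icc 1 (N - 2 * n),
          Complex.exp ((l : ℂ) * t * Complex.I) *
          ∫ v in Ioi (0 : ℝ), ((Real.exp (-(v / p)) * kap n l v : ℝ) : ℂ) *
            avc (fun s => Complex.exp (-((l : ℂ) * s * Complex.I)) * H (u + v) s) := by
      rw [Finset.mul_sum]
      refine Finset.sum_congr rfl fun l hl => ?_
      rw [Finset.mem_Icc] at hl
      have h1 := (hKX n hn p hp l hl.1 (ζ (2 * (n : ℤ) + (l : ℤ))) (hζ _) u).1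
      have h2 : (((2 * (n : ℤ) + (l : ℤ)) - 2 * n : ℤ) : ℂ) = (l : ℂ) := by
        push_cast
        ring
      rw [h1, h2, add_sub_cancel_left]
      have h3 : ∀ v, pol (PA p n (2 * (n : ℤ) + (l : ℤ))) (ζ (2 * (n : ℤ) + (l : ℤ))) (u + v) =
          avc (fun s => Complex.exp (-((l : ℂ) * s * Complex.I)) * H (u + v) s) := by
        intro v
        rw [← hm (2 * (n : ℤ) + (l : ℤ)) (u + v) (by
          rw [abs_of_nonneg (by positivity)]
          omega) (Or.inl (by omega)), h2]
      simp_rw [h3]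
      ring
    rw [hsum, norm_mul]
    have h4 : ‖((-1) ^ n * n : ℂ)‖ = n := by simp
    rw [h4]
    refine mul_le_mul_of_nonneg_left (key.trans ?_) (by positivity)
    exact mul_le_mul_of_nonneg_left hA1 (by positivity)
  -- second part
  have hHn : ∀ v s, H v (s + 2 * Real.pi) = H v s := hper
  have hP2 : ‖∑ l ∈ Finset.Icc 1 N,
      Complex.exp (((-(l : ℤ) - 2 * n : ℤ) : ℂ) * t * Complex.I) *
        (pol (PB p n (-(l : ℤ))) (ζ (-(l : ℤ))) u -
          pol (PA p n (-(l : ℤ))) (ζ (-(l : ℤ))) u)‖ ≤ n * (C * q * A) := by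
    have hFper : ∀ (m : ℤ) (v : ℝ), Function.Periodic
        (fun s : ℝ => Complex.exp (-((m : ℂ) * s * Complex.I)) * H v s) (2 * Real.pi) := by
      intro m v s
      show _ * _ = _ * _
      rw [hHn]
      congr 1
      exact RR.exp_per m s
    have havc : ∀ (l : ℕ) (v : ℝ),
        avc (fun s => Complex.exp (-((l : ℂ) * s * Complex.I)) *
          (Complex.exp (-(2 * (n : ℂ) * s * Complex.I)) * H (u - v) (-s))) =
        avc (fun s => Complex.exp (-(((-(l : ℤ) - 2 * n : ℤ) : ℂ) * s * Complex.I)) *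
          H (u - v) s) := by
      intro l v
      rw [← RR.avc_neg (hFper (-(l : ℤ) - 2 * n) (u - v))]
      congr 1
      funext s
      rw [← mul_assoc, ← Complex.exp_add]
      congr 2
      push_cast
      ring
    have key := hC q N hq hNq (fun v => Real.exp (-((1 - 1 / p) * v)))
      (fun v s => Complex.exp (-(2 * (n : ℂ) * s * Complex.I)) * H (u - v) (-s)) (|R| + |u|)
      (Real.continuous_exp.comp (continuous_const.mul continuous_id).neg)
      (fun v hv => by
        rw [abs_of_pos (Real.exp_pos _), Real.exp_le_one_iff]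
        have h1 : 1 / p ≤ 1 := by
          rw [div_le_one hp0]
          linarith
        have : 0 ≤ (1 - 1 / p) * v := mul_nonneg (by linarith) hv.le
        linarith)
      (by
        have h1 : Continuous fun x : ℝ × ℝ => Complex.exp (-(2 * (n : ℂ) * (x.2 : ℂ) * Complex.I)) := by
          fun_prop
        exact h1.mul (hH.comp ((continuous_const.sub continuous_fst).prodMk continuous_snd.neg)))
      (fun v hv s => by
        have h1 := hout (-v) (by rwa [abs_neg])
        rw [← sub_eq_add_neg] at h1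
        show _ * _ = _
        rw [hR _ h1, mul_zero])
      (fun v l hl => by
        rw [havc]
        apply hz
        have : (-(l : ℤ) - 2 * n + 2 * n) = -(l : ℤ) := by ring
        rw [this, abs_neg, abs_of_nonneg (by positivity)]
        exact_mod_cast hl) (-t)
    have hsum : (∑ l ∈ Finset.Icc 1 N,
        Complex.exp (((-(l : ℤ) - 2 * n : ℤ) : ℂ) * t * Complex.I) *
          (pol (PB p n (-(l : ℤ))) (ζ (-(l : ℤ))) u -
            pol (PA p n (-(l : ℤ))) (ζ (-(l : ℤ))) u)) =
        ((-1) ^ n * n * Complex.exp (((-(2 * n * t) : ℝ) : ℂ) * Complex.I)) *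
        ∑ l ∈ Finset.Icc 1 N,
          Complex.exp ((l : ℂ) * ((-t : ℝ) : ℂ) * Complex.I) *
          ∫ v in Ioi (0 : ℝ), ((Real.exp (-((1 - 1 / p) * v)) * kap n l v : ℝ) : ℂ) *
            avc (fun s => Complex.exp (-((l : ℂ) * s * Complex.I)) *
              (Complex.exp (-(2 * (n : ℂ) * s * Complex.I)) * H (u - v) (-s))) := by
      rw [Finset.mul_sum]
      refine Finset.sum_congr rfl fun l hl => ?_
      rw [Finset.mem_Icc] at hl
      have h1 := (hKX n hn p hp l hl.1 (ζ (-(l : ℤ))) (hζ _) u).2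
      rw [h1, add_sub_cancel_left]
      have h3 : ∀ v, pol (PA p n (-(l : ℤ))) (ζ (-(l : ℤ))) (u - v) =
          avc (fun s => Complex.exp (-((l : ℂ) * s * Complex.I)) *
            (Complex.exp (-(2 * (n : ℂ) * s * Complex.I)) * H (u - v) (-s))) := by
        intro v
        rw [havc, hm (-(l : ℤ)) (u - v) (by
          rw [abs_neg, abs_of_nonneg (by positivity)]
          omega) (Or.inr (by omega))]
      simp_rw [h3]
      have h5 : Complex.exp (((-(l : ℤ) - 2 * n : ℤ) : ℂ) * t * Complex.I) =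
          Complex.exp (((-(2 * n * t) : ℝ) : ℂ) * Complex.I) *
            Complex.exp ((l : ℂ) * ((-t : ℝ) : ℂ) * Complex.I) := by
        rw [← Complex.exp_add]
        congr 1
        push_cast
        ring
      rw [h5]
      ring
    rw [hsum, norm_mul]
    have h4 : ‖((-1) ^ n * n * Complex.exp (((-(2 * n * t) : ℝ) : ℂ) * Complex.I) : ℂ)‖ = n := by
      rw [norm_mul, Complex.norm_exp_ofReal_mul_I, mul_one]
      simp
    rw [h4]
    refine mul_le_mul_of_nonneg_left (key.trans ?_) (by positivity)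
    have h6 : ∀ v : ℝ, (av fun s => ‖Complex.exp (-(2 * (n : ℂ) * s * Complex.I)) *
        H (u - v) (-s)‖ ^ q) = hr q H (u - v) := by
      intro v
      unfold hr
      rw [← RR.av_neg (f := fun s => ‖H (u - v) s‖ ^ q) (fun s => by
        show ‖_‖ ^ q = _
        rw [hHn])]
      congr 1
      funext s
      rw [norm_mul]
      have h7 : ‖Complex.exp (-(2 * (n : ℂ) * s * Complex.I))‖ = 1 := by
        have h8 : -(2 * (n : ℂ) * s * Complex.I) = ((-(2 * n * s) : ℝ) : ℂ) * Complex.I := by
          push_cast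
          ring
        rw [h8, Complex.norm_exp_ofReal_mul_I]
      rw [h7, one_mul]
    simp_rw [h6]
    exact mul_le_mul_of_nonneg_left hA2 (by positivity)
  -- the set of frequencies
  have hset : (Finset.Icc (-(N : ℤ)) N).filter (fun k => 2 * (n : ℤ) < k ∨ k < 0) =
      (Finset.Icc 1 (N - 2 * n)).image (fun l : ℕ => 2 * (n : ℤ) + (l : ℤ)) ∪
        (Finset.Icc 1 N).image (fun l : ℕ => -(l : ℤ)) := by
    ext k
    simp only [Finset.mem_filter, Finset.mem_Icc, Finset.mem_union, Finset.mem_image]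
    constructor
    · rintro ⟨⟨h1, h2⟩, h3 | h3⟩
      · left
        exact ⟨(k - 2 * n).toNat, by omega, by omega⟩
      · right
        exact ⟨(-k).toNat, by omega, by omega⟩
    · rintro (⟨l, ⟨h1, h2⟩, rfl⟩ | ⟨l, ⟨h1, h2⟩, rfl⟩)
      · omega
      · omega
  have hdisj : Disjoint ((Finset.Icc 1 (N - 2 * n)).image (fun l : ℕ => 2 * (n : ℤ) + (l : ℤ)))
      ((Finset.Icc 1 N).image (fun l : ℕ => -(l : ℤ))) := by
    rw [Finset.disjoint_left]
    intro k h1 h2
    simp only [Finset.mem_Icc, Finset.mem_image] at h1 h2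
    obtain ⟨l, h1, rfl⟩ := h1
    obtain ⟨l', h2, h3⟩ := h2
    omega
  rw [hset, Finset.sum_union hdisj, Finset.sum_image (by intro a _ b _ h; simpa using h),
    Finset.sum_image (by intro a _ b _ h; simpa using h)]
  refine (norm_add_le _ _).trans ((add_le_add hP1 hP2).trans (le_of_eq ?_))
  ring

end Pool.Agent.W2helper19.BQ
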