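import Pool.Agent.W2helper3.BQ.Stm
import Pool.Agent.Y282.RB.K

/-! Piece TR of project BQ (helper3): truncation of one angular mode. -/

set_option autoImplicit false

open MeasureTheory Set Filter Topology
open scoped SchwartzMap ENNReal ContDiff

namespace Pool.Agent.W2helper3.BQ

open Pool.Agent.Y282.RB.K (exists_cut tendsto_trunc)

theorem TR.normSq_ex (u t : ℝ) : Complex.normSq (ex u t) = Real.exp u := by
  unfold ex
  rw [Complex.normSq_eq_norm_sq, Complex.norm_exp]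
  have : (((u / 2 : ℝ) : ℂ) + (t : ℂ) * Complex.I).re = u / 2 := by simp
  rw [this, sq, ← Real.exp_add]
  congr 1
  ring

theorem TR.ex_mul (u t : ℝ) : ex u t = Complex.exp (t * Complex.I) * ex u 0 := by
  unfold ex
  rw [← Complex.exp_add]
  congr 1
  push_cast
  ring

theorem TR.cut_smooth (χ : ℝ → ℝ) (h : ContDiff ℝ ∞ χ) (f : 𝓢(ℂ, ℂ)) :
    ContDiff ℝ ∞ fun z : ℂ => (χ (Complex.normSq z) : ℂ) * f z := by
  refine ContDiff.mul ?_ (f.smooth ⊤)
  refine Complex.ofRealCLM.contDiff.comp (h.comp ?_)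
  have : (fun z : ℂ => Complex.normSq z) = fun z => z.re * z.re + z.im * z.im := by
    funext z
    exact Complex.normSq_apply z
  show ContDiff ℝ ∞ (fun z : ℂ => Complex.normSq z)
  rw [this]
  exact (Complex.reCLM.contDiff.mul Complex.reCLM.contDiff).add
    (Complex.imCLM.contDiff.mul Complex.imCLM.contDiff)

theorem TR.cut_supp (χ : ℝ → ℝ) (R : ℝ) (h : ∀ x, R ≤ x → χ x = 0) (f : 𝓢(ℂ, ℂ)) :
    HasCompactSupport fun z : ℂ => (χ (Complex.normSq z) : ℂ) * f z := by
  refine HasCompactSupport.intro (isCompact_closedBall (0 : ℂ) (max R 1)) fun z hz => ?_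
  rw [Metric.mem_closedBall, dist_zero_right, not_le] at hz
  rw [h _ ?_]
  · simp
  · rw [Complex.normSq_eq_norm_sq]
    have h2 : R < ‖z‖ := lt_of_le_of_lt (le_max_left _ _) hz
    have h3 : 1 < ‖z‖ := lt_of_le_of_lt (le_max_right _ _) hz
    nlinarith

theorem TR.rad_smooth (p : ℝ) (χ : ℝ → ℝ) (h : ContDiff ℝ ∞ χ) (f : 𝓢(ℂ, ℂ)) :
    ContDiff ℝ ∞ fun u : ℝ => (Real.exp (u / p) : ℂ) * ((χ (Real.exp u) : ℂ) * f (ex u 0)) := by
  refine ContDiff.mul ?_ (ContDiff.mul ?_ ?_)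
  · exact Complex.ofRealCLM.contDiff.comp (Real.contDiff_exp.comp (contDiff_id.div_const p))
  · exact Complex.ofRealCLM.contDiff.comp (h.comp Real.contDiff_exp)
  · refine (f.smooth ⊤).comp ?_
    have h1 : (fun u : ℝ => ex u 0) = fun u : ℝ => ((Real.exp (u / 2) : ℝ) : ℂ) := by
      funext u
      unfold ex
      push_cast
      simp
    rw [h1]
    exact Complex.ofRealCLM.contDiff.comp (Real.contDiff_exp.comp (contDiff_id.div_const 2))

theorem TR.rad_supp (p : ℝ) (χ : ℝ → ℝ) (R δ : ℝ) (hδ : 0 < δ) (h : ∀ x, R ≤ x → χ x = 0)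
    (h' : ∀ x, x ≤ δ → χ x = 0) (f : 𝓢(ℂ, ℂ)) :
    HasCompactSupport
      fun u : ℝ => (Real.exp (u / p) : ℂ) * ((χ (Real.exp u) : ℂ) * f (ex u 0)) := by
  refine HasCompactSupport.intro (isCompact_Icc (a := Real.log δ) (b := Real.log (max R 1)))
    fun u hu => ?_
  have h0 : χ (Real.exp u) = 0 := by
    rcases lt_or_ge u (Real.log δ) with h1 | h1
    · apply h'
      rw [← Real.exp_log hδ]
      exact (Real.exp_lt_exp.2 h1).le
    · have h2 : Real.log (max R 1) < u := by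
        by_contra h3
        exact hu ⟨h1, not_lt.1 h3⟩
      apply h
      have h4 : 0 < max R 1 := lt_max_of_lt_right one_pos
      calc R ≤ max R 1 := le_max_left _ _
        _ = Real.exp (Real.log (max R 1)) := (Real.exp_log h4).symm
        _ ≤ Real.exp u := (Real.exp_lt_exp.2 h2).le
  rw [h0]
  simp

theorem p_TR : P_TR := by
  intro k f hf p ε hp hε
  have hk : ∀ j : ℕ, (0 : ℝ) < 1 / ((j : ℝ) + 2) ∧ 1 / ((j : ℝ) + 2) < 1 := by
    intro j
    have : (0 : ℝ) ≤ j := Nat.cast_nonneg j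
    refine ⟨by positivity, ?_⟩
    rw [div_lt_one (by linarith)]
    linarith
  choose χ R hχ1 hχ2 hχ3 hχ4 hχ5 hχ6 using fun j : ℕ =>
    exists_cut (1 / ((j : ℝ) + 2)) (hk j).1 (hk j).2
  obtain ⟨h, hh⟩ : ∃ h : ℕ → 𝓢(ℂ, ℂ), ∀ j z, h j z = (χ j (Complex.normSq z) : ℂ) * f z :=
    ⟨fun j => (TR.cut_supp (χ j) (R j) (hχ6 j) f).toSchwartzMap (TR.cut_smooth (χ j) (hχ1 j) f),
      fun j z => rfl⟩
  have hlim := tendsto_trunc f (fun j => f - h j) p hp (fun j z => by
      have e : (f - h j) z = ((1 - χ j (Complex.normSq z) : ℝ) : ℂ) * f z := by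
        show f z - h j z = _
        rw [hh]
        push_cast
        ring
      rw [e, norm_mul, Complex.norm_real,
        Real.norm_of_nonneg (by linarith [(hχ3 j (Complex.normSq z)).2])]
      exact mul_le_of_le_one_left (norm_nonneg _) (by linarith [(hχ3 j (Complex.normSq z)).1]))
    fun j z hz1 hz2 => by
      show f z - h j z = 0
      rw [hh, hχ4 j _ hz1 (by rw [one_div_one_div]; exact hz2)]
      simp
  obtain ⟨j, hj⟩ := (hlim.eventually (Iic_mem_nhds (ENNReal.ofReal_pos.2 hε))).exists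
  refine ⟨(TR.rad_supp p (χ j) (R j) (1 / ((j : ℝ) + 2) / 2) (by have := (hk j).1; linarith)
    (hχ6 j) (hχ5 j) f).toSchwartzMap (TR.rad_smooth p (χ j) (hχ1 j) f), h j, ?_, fun u t => ?_, hj⟩
  · exact TR.rad_supp p (χ j) (R j) (1 / ((j : ℝ) + 2) / 2) (by have := (hk j).1; linarith)
      (hχ6 j) (hχ5 j) f
  · show (Real.exp (u / p) : ℂ) * h j (ex u t) = Complex.exp (k * t * Complex.I) *
      ((Real.exp (u / p) : ℂ) * ((χ j (Real.exp u) : ℂ) * f (ex u 0)))
    rw [hh, TR.normSq_ex, TR.ex_mul, hf _ _ (Complex.norm_exp_ofReal_mul_I t),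
      ← Complex.exp_int_mul]
    have : (k : ℂ) * ((t : ℂ) * Complex.I) = k * t * Complex.I := by ring
    rw [this]
    ring

end Pool.Agent.W2helper3.BQ
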